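import Pool.Graph.R_seed8.Helper759.YaoYaoDefs

/-!
# Yao-Yao graphs with a small cluster (MP_391ffd_co)
-/

set_option autoImplicit false

namespace Pool.Agent.KS6_76.YY

open Pool.Agent.Helper759.YaoYao

/-- a homothety followed by a translation -/
noncomputable def aff (l : ℝ) (z p : ℂ) : ℂ := l * p + z

theorem aff_sub (l : ℝ) (z a b : ℂ) : aff l z a - aff l z b = l * (a - b) := by
  unfold aff; ring

theorem dist_aff {l : ℝ} (hl : 0 < l) (z a b : ℂ) :
    dist (aff l z a) (aff l z b) = l * dist a b := by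
  rw [Complex.dist_eq, Complex.dist_eq, aff_sub, norm_mul, Complex.norm_real,
    Real.norm_of_nonneg hl.le]

theorem aff_inj {l : ℝ} (hl : 0 < l) (z : ℂ) {a b : ℂ} (h : aff l z a = aff l z b) : a = b := by
  have h1 := dist_aff hl z a b
  rw [h, dist_self] at h1
  have h2 : dist a b = 0 := by
    rcases mul_eq_zero.1 h1.symm with h3 | h3
    · exact absurd h3 hl.ne'
    · exact h3
  exact dist_eq_zero.1 h2

theorem coneIdx_smul (k : ℕ) (θ : ℝ) {l : ℝ} (hl : 0 < l) (z : ℂ) :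
    coneIdx k θ (l * z) = coneIdx k θ z := by
  unfold coneIdx
  rw [Complex.arg_real_mul _ hl]

/-- A small cluster of a point set. -/
structure Cluster (k : ℕ) (P₀ P : Finset ℂ) (θ₀ θ : ℂ → ℝ) (l : ℝ) (z : ℂ) (T : ℝ) : Prop where
  hl : 0 < l
  hT : 1 ≤ T
  sub : ∀ p ∈ P₀, aff l z p ∈ P
  ori : ∀ p ∈ P₀, θ (aff l z p) = θ₀ p
  far : ∀ a ∈ P₀, ∀ x ∈ P, (∀ p ∈ P₀, aff l z p ≠ x) → ∀ b ∈ P₀, ∀ c ∈ P₀,
    T * dist (aff l z b) (aff l z c) < dist (aff l z a) x

section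

variable {k : ℕ} {P₀ P : Finset ℂ} {θ₀ θ : ℂ → ℝ} {l : ℝ} {z : ℂ} {T : ℝ}
  {lt : ℂ × ℂ → ℂ × ℂ → Prop}

/-- the rule for ties on the cluster -/
def ltc (l : ℝ) (z : ℂ) (lt : ℂ × ℂ → ℂ × ℂ → Prop) : ℂ × ℂ → ℂ × ℂ → Prop := fun e f =>
  lt (aff l z e.1, aff l z e.2) (aff l z f.1, aff l z f.2)

theorem before_iff (hl : 0 < l) (a b c d : ℂ) :
    Before (ltc l z lt) (a, b) (c, d) ↔
      Before lt (aff l z a, aff l z b) (aff l z c, aff l z d) := by
  unfold Before ltc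
  simp only [dist_aff hl]
  rw [mul_lt_mul_iff_right₀ hl, mul_right_inj' hl.ne']

theorem Cluster.cone (C : Cluster k P₀ P θ₀ θ l z T) {a : ℂ} (ha : a ∈ P₀) (w : ℂ) :
    coneIdx k (θ (aff l z a)) (aff l z w - aff l z a) = coneIdx k (θ₀ a) (w - a) := by
  rw [C.ori a ha, aff_sub, coneIdx_smul _ _ C.hl]

theorem Cluster.down (C : Cluster k P₀ P θ₀ θ l z T) {a b : ℂ} (ha : a ∈ P₀) (hb : b ∈ P₀)
    (h : YaoEdge k P θ lt (aff l z a) (aff l z b)) : YaoEdge k P₀ θ₀ (ltc l z lt) a b := by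
  obtain ⟨-, -, hne, h⟩ := h
  refine ⟨ha, hb, fun h' => hne (by rw [h']), ?_⟩
  intro w hw hwa hwb hc
  rw [before_iff C.hl]
  refine h _ (C.sub w hw) (fun h' => hwa (aff_inj C.hl z h')) (fun h' => hwb (aff_inj C.hl z h')) ?_
  rw [C.cone ha, C.cone ha, hc]

theorem Cluster.up (C : Cluster k P₀ P θ₀ θ l z T) {a b : ℂ} (ha : a ∈ P₀) (hb : b ∈ P₀)
    (h : YaoEdge k P₀ θ₀ (ltc l z lt) a b) : YaoEdge k P θ lt (aff l z a) (aff l z b) := by
  obtain ⟨-, -, hne, h⟩ := h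
  refine ⟨C.sub a ha, C.sub b hb, fun h' => hne (aff_inj C.hl z h'), ?_⟩
  intro x hx hxa hxb hc
  by_cases hex : ∃ p ∈ P₀, aff l z p = x
  · obtain ⟨p, hp, rfl⟩ := hex
    rw [C.cone ha, C.cone ha] at hc
    rw [← before_iff C.hl]
    exact h p hp (fun h' => hxa (by rw [h'])) (fun h' => hxb (by rw [h'])) hc
  · push Not at hex
    left
    have h1 := C.far a ha x hx hex a ha b hb
    have h2 : dist (aff l z a) (aff l z b) ≤ T * dist (aff l z a) (aff l z b) :=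
      le_mul_of_one_le_left dist_nonneg C.hT
    exact h2.trans_lt h1

theorem Cluster.yy (C : Cluster k P₀ P θ₀ θ l z T) {a b : ℂ} (ha : a ∈ P₀) (hb : b ∈ P₀)
    (h : YaoYaoEdge k P θ lt (aff l z a) (aff l z b)) :
    YaoYaoEdge k P₀ θ₀ (ltc l z lt) a b := by
  obtain ⟨h1, h2⟩ := h
  refine ⟨C.down ha hb h1, ?_⟩
  intro w hw hwa hc
  rw [before_iff C.hl]
  refine h2 _ (C.up hw.1 hb hw) (fun h' => hwa (aff_inj C.hl z h')) ?_
  rw [C.cone hb, C.cone hb, hc]

theorem Cluster.walk (C : Cluster k P₀ P θ₀ θ l z T) {L : ℝ}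
    (hL : ∀ a ∈ P₀, ∀ x ∈ P, (∀ p ∈ P₀, aff l z p ≠ x) → L < dist (aff l z a) x)
    {x y : {p : ℂ // p ∈ P}} (p : (YaoYao k P θ lt).Walk x y) :
    ∀ (a v : {p : ℂ // p ∈ P₀}), x.1 = aff l z a.1 → y.1 = aff l z v.1 → walkLength p ≤ L →
      ∃ q : (YaoYao k P₀ θ₀ (ltc l z lt)).Walk a v, l * walkLength q ≤ walkLength p := by
  induction p with
  | nil =>
    intro a v ha hv _
    have hav : a = v := Subtype.ext (aff_inj C.hl z (ha.symm.trans hv))
    subst hav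
    exact ⟨SimpleGraph.Walk.nil, by simp [walkLength]⟩
  | @cons x w y hadj p ih =>
    intro a v ha hv hle
    have hcons : walkLength (SimpleGraph.Walk.cons hadj p) = dist x.1 w.1 + walkLength p := by
      simp [walkLength]
    have hpos : 0 ≤ walkLength p := by
      unfold walkLength
      apply List.sum_nonneg
      intro r hr
      rw [List.mem_map] at hr
      obtain ⟨d, -, rfl⟩ := hr
      exact dist_nonneg
    rw [hcons] at hle ⊢
    by_cases hex : ∃ b ∈ P₀, aff l z b = w.1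
    · obtain ⟨b, hb, hbw⟩ := hex
      obtain ⟨q, hq⟩ := ih ⟨b, hb⟩ v hbw.symm hv (by
        have := dist_nonneg (x := x.1) (y := w.1)
        linarith)
      have hab : (YaoYao k P₀ θ₀ (ltc l z lt)).Adj a ⟨b, hb⟩ := by
        unfold YaoYao at hadj ⊢
        rw [SimpleGraph.fromRel_adj] at hadj ⊢
        obtain ⟨hne, h⟩ := hadj
        refine ⟨?_, ?_⟩
        · intro hab
          apply hne
          apply Subtype.ext
          rw [ha, ← hbw, hab]
        · rw [ha, ← hbw] at h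
          rcases h with h | h
          · exact Or.inl (C.yy a.2 hb h)
          · exact Or.inr (C.yy hb a.2 h)
      refine ⟨SimpleGraph.Walk.cons hab q, ?_⟩
      have hcons' : walkLength (SimpleGraph.Walk.cons hab q) = dist a.1 b + walkLength q := by
        simp [walkLength]
      rw [hcons', ha, ← hbw, dist_aff C.hl, mul_add]
      linarith
    · push Not at hex
      have h1 := hL a.1 a.2 w.1 w.2 hex
      rw [← ha] at h1
      linarith

theorem Cluster.not_spanner (C : Cluster k P₀ P θ₀ θ l z T)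
    (h : ∀ lt : ℂ × ℂ → ℂ × ℂ → Prop, ¬ IsSpanner T (YaoYao k P₀ θ₀ lt)) :
    ¬ IsSpanner T (YaoYao k P θ lt) := by
  intro hs
  apply h (ltc l z lt)
  intro u v
  obtain ⟨p, hp⟩ := hs ⟨aff l z u.1, C.sub u.1 u.2⟩ ⟨aff l z v.1, C.sub v.1 v.2⟩
  obtain ⟨q, hq⟩ := C.walk (fun a ha x hx hne => C.far a ha x hx hne u.1 u.2 v.1 v.2) p u v
    rfl rfl hp
  refine ⟨q, ?_⟩
  have h1 : l * walkLength q ≤ l * (T * dist u.1 v.1) := by
    calc l * walkLength q ≤ walkLength p := hq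
      _ ≤ T * dist (aff l z u.1) (aff l z v.1) := hp
      _ = l * (T * dist u.1 v.1) := by rw [dist_aff C.hl]; ring
  exact le_of_mul_le_mul_left h1 C.hl

end

end Pool.Agent.KS6_76.YY
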