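import Pool.Agent.KS6_76.YY.Clu
import Pool.Graph.R_seed8.Helper759.YaoYaoProof

/-!
# Point sets which are bad for the Yao-Yao graphs of many `k` (MP_391ffd_co)
-/

set_option autoImplicit false

namespace Pool.Agent.KS6_76.YY

open Pool.Agent.Helper759.YaoYao Set

theorem pos_bound {α : Type*} (s : Finset α) (f : α → ℝ) (h : ∀ a ∈ s, 0 < f a) :
    ∃ η : ℝ, 0 < η ∧ ∀ a ∈ s, η ≤ f a := by
  classical
  induction s using Finset.induction_on with
  | empty => exact ⟨1, one_pos, by simp⟩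
  | insert a s ha ih =>
    obtain ⟨η, h1, h2⟩ := ih (fun b hb => h b (Finset.mem_insert_of_mem hb))
    refine ⟨min η (f a), lt_min h1 (h a (Finset.mem_insert_self _ _)), ?_⟩
    intro b hb
    rcases Finset.mem_insert.1 hb with rfl | hb
    · exact min_le_right _ _
    · exact (min_le_left _ _).trans (h2 b hb)

theorem bad_dense (K : ℕ) (t : ℝ) (Q : Finset ℂ) (θ₀ : ℂ → ℝ) (U : Set ℂ) (hU : IsOpen U)
    (hUn : U.Nonempty) :
    ∃ (P : Finset ℂ) (θ : ℂ → ℝ), Q ⊆ P ∧ (∀ x ∈ P, x ∉ Q → x ∈ U) ∧ (∀ x ∈ Q, θ x = θ₀ x) ∧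
      ∀ k : ℕ, 2 ≤ k → k ≤ K → ∀ lt : ℂ × ℂ → ℂ × ℂ → Prop,
        ¬ IsSpanner t (YaoYao k P θ lt) := by
  classical
  set T : ℝ := max t 1 with hT
  have hT1 : 1 ≤ T := le_max_right _ _
  choose! Pk θk hPk using fun (k : ℕ) (hk : 2 ≤ k) =>
    Pool.Agent.Helper759.YaoYao.main k hk T
  -- a bound for the sizes
  obtain ⟨R, hR, hRb⟩ := (((Finset.range (K + 1)).biUnion Pk).finite_toSet.isBounded
    ).exists_pos_norm_le
  have hRk : ∀ k ≤ K, ∀ p ∈ Pk k, ‖p‖ ≤ R := by
    intro k hk p hp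
    apply hRb
    rw [Finset.mem_coe, Finset.mem_biUnion]
    exact ⟨k, Finset.mem_range.2 (by omega), hp⟩
  -- the centres
  have hinf : (U \ (Q : Set ℂ)).Infinite := by
    obtain ⟨x, hx⟩ := hUn
    exact (infinite_of_mem_nhds x (hU.mem_nhds hx)).sdiff Q.finite_toSet
  let zz := hinf.natEmbedding
  let z : ℕ → ℂ := fun n => (zz n).1
  have hzU : ∀ n, z n ∈ U := fun n => (zz n).2.1
  have hzQ : ∀ n, z n ∉ Q := fun n => (zz n).2.2
  have hzi : Function.Injective z := Subtype.val_injective.comp zz.injective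
  -- distances
  have hball : ∀ n, ∃ r : ℝ, 0 < r ∧ Metric.ball (z n) r ⊆ U := fun n =>
    Metric.isOpen_iff.1 hU (z n) (hzU n)
  choose r hr hrU using hball
  obtain ⟨r₀, hr₀, hrr⟩ := pos_bound (Finset.range (K + 1)) r (fun n _ => hr n)
  obtain ⟨η₁, hη₁, h₁⟩ := pos_bound ((Finset.range (K + 1)) ×ˢ Q) (fun x => dist (z x.1) x.2)
    (by
      rintro ⟨n, x⟩ hx
      rw [Finset.mem_product] at hx
      apply dist_pos.2
      rintro h
      exact hzQ n (h ▸ hx.2))
  obtain ⟨η₂, hη₂, h₂⟩ := pos_bound (((Finset.range (K + 1)) ×ˢ (Finset.range (K + 1))).filter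
    (fun x => x.1 ≠ x.2)) (fun x => dist (z x.1) (z x.2))
    (by
      rintro ⟨n, m⟩ hx
      rw [Finset.mem_filter] at hx
      exact dist_pos.2 (fun h => hx.2 (hzi h)))
  set η := min η₁ η₂ with hη
  have hη0 : 0 < η := lt_min hη₁ hη₂
  set ρ : ℝ := min (r₀ / 2) (η / (2 * T + 3)) with hρ
  have hρ0 : 0 < ρ := lt_min (by positivity) (by positivity)
  have hρr : ρ < r₀ := (min_le_left _ _).trans_lt (by linarith)
  have hρη : (2 * T + 2) * ρ < η := by
    have h3 : ρ * (2 * T + 3) ≤ η := by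
      rw [← le_div_iff₀ (by positivity)]
      exact min_le_right _ _
    nlinarith
  set l : ℝ := ρ / R with hl
  have hl0 : 0 < l := by positivity
  have hnear : ∀ k ≤ K, ∀ p ∈ Pk k, dist (aff l (z k) p) (z k) ≤ ρ := by
    intro k hk p hp
    have h4 : aff l (z k) p - z k = l * p := by unfold aff; ring
    rw [Complex.dist_eq, h4, norm_mul, Complex.norm_real, Real.norm_of_nonneg hl0.le, hl]
    calc ρ / R * ‖p‖ ≤ ρ / R * R := mul_le_mul_of_nonneg_left (hRk k hk p hp) hl0.le
      _ = ρ := by field_simp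
  have hQfar : ∀ k ≤ K, ∀ p ∈ Pk k, ∀ x ∈ Q, η - ρ ≤ dist (aff l (z k) p) x := by
    intro k hk p hp x hx
    have h5 : η ≤ dist (z k) x := (min_le_left _ _).trans
      (h₁ (k, x) (Finset.mem_product.2 ⟨Finset.mem_range.2 (by omega), hx⟩))
    have h6 := dist_triangle (z k) (aff l (z k) p) x
    have h7 := hnear k hk p hp
    rw [dist_comm] at h7
    linarith
  have hCfar : ∀ k ≤ K, ∀ j ≤ K, k ≠ j → ∀ p ∈ Pk k, ∀ q ∈ Pk j,
      η - 2 * ρ ≤ dist (aff l (z k) p) (aff l (z j) q) := by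
    intro k hk j hj hkj p hp q hq
    have h5 : η ≤ dist (z k) (z j) := (min_le_right _ _).trans
      (h₂ (k, j) (Finset.mem_filter.2 ⟨Finset.mem_product.2 ⟨Finset.mem_range.2 (by omega),
        Finset.mem_range.2 (by omega)⟩, hkj⟩))
    have h6 := dist_triangle4 (z k) (aff l (z k) p) (aff l (z j) q) (z j)
    have h7 := hnear k hk p hp
    rw [dist_comm] at h7
    have h8 := hnear j hj q hq
    linarith
  have huniq : ∀ k ≤ K, ∀ j ≤ K, ∀ p ∈ Pk k, ∀ q ∈ Pk j,
      aff l (z k) p = aff l (z j) q → k = j ∧ p = q := by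
    intro k hk j hj p hp q hq h
    by_cases hkj : k = j
    · subst hkj
      exact ⟨rfl, aff_inj hl0 _ h⟩
    · exfalso
      have := hCfar k hk j hj hkj p hp q hq
      rw [h, dist_self] at this
      nlinarith
  have hnQ : ∀ k ≤ K, ∀ p ∈ Pk k, aff l (z k) p ∉ Q := by
    intro k hk p hp h
    have := hQfar k hk p hp _ h
    rw [dist_self] at this
    nlinarith
  -- the point set
  let P : Finset ℂ := Q ∪ (Finset.range (K + 1)).biUnion (fun k => (Pk k).image (aff l (z k)))
  let θ : ℂ → ℝ := fun x => if x ∈ Q then θ₀ x else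
    if h : ∃ q : ℕ × ℂ, q.1 ≤ K ∧ q.2 ∈ Pk q.1 ∧ aff l (z q.1) q.2 = x then
      θk h.choose.1 h.choose.2 else 0
  have hθ : ∀ k ≤ K, ∀ p ∈ Pk k, θ (aff l (z k) p) = θk k p := by
    intro k hk p hp
    have hex : ∃ q : ℕ × ℂ, q.1 ≤ K ∧ q.2 ∈ Pk q.1 ∧ aff l (z q.1) q.2 = aff l (z k) p :=
      ⟨(k, p), hk, hp, rfl⟩
    have h1 : θ (aff l (z k) p) = θk hex.choose.1 hex.choose.2 := by
      simp only [θ]
      rw [if_neg (hnQ k hk p hp), dif_pos hex]
    obtain ⟨h2, h3, h4⟩ := hex.choose_spec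
    obtain ⟨h5, h6⟩ := huniq _ h2 _ hk _ h3 _ hp h4
    rw [h1, h5, h6]
  refine ⟨P, θ, Finset.subset_union_left, ?_, ?_, ?_⟩
  · intro x hx hxQ
    rcases Finset.mem_union.1 hx with hx | hx
    · exact absurd hx hxQ
    · obtain ⟨k, hk, hx⟩ := Finset.mem_biUnion.1 hx
      obtain ⟨p, hp, rfl⟩ := Finset.mem_image.1 hx
      have hkK : k ≤ K := by
        have := Finset.mem_range.1 hk
        omega
      apply hrU k
      rw [Metric.mem_ball]
      exact (hnear k hkK p hp).trans_lt (hρr.trans_le (hrr k hk))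
  · intro x hx
    simp only [θ]
    rw [if_pos hx]
  · intro k hk hkK lt hs
    have C : Cluster k (Pk k) P (θk k) θ l (z k) T := by
      refine ⟨hl0, hT1, ?_, fun p hp => hθ k hkK p hp, ?_⟩
      · intro p hp
        apply Finset.mem_union_right
        exact Finset.mem_biUnion.2 ⟨k, Finset.mem_range.2 (by omega),
          Finset.mem_image.2 ⟨p, hp, rfl⟩⟩
      · intro a ha x hx hne b hb c hc
        have h8 : dist (aff l (z k) b) (aff l (z k) c) ≤ 2 * ρ := by
          have h9 := hnear k hkK b hb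
          have h10 := hnear k hkK c hc
          have h11 := dist_triangle_right (aff l (z k) b) (aff l (z k) c) (z k)
          linarith
        have h12 : η - 2 * ρ ≤ dist (aff l (z k) a) x := by
          rcases Finset.mem_union.1 hx with hx | hx
          · have := hQfar k hkK a ha x hx
            linarith
          · obtain ⟨j, hj, hx⟩ := Finset.mem_biUnion.1 hx
            obtain ⟨q, hq, rfl⟩ := Finset.mem_image.1 hx
            have hjK : j ≤ K := by
              have := Finset.mem_range.1 hj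
              omega
            refine hCfar k hkK j hjK ?_ a ha q hq
            rintro rfl
            exact hne q hq rfl
        have h13 : T * dist (aff l (z k) b) (aff l (z k) c) ≤ T * (2 * ρ) :=
          mul_le_mul_of_nonneg_left h8 (by linarith)
        nlinarith
    refine C.not_spanner (hPk k hk) (lt := lt) ?_
    intro u v
    obtain ⟨p, hp⟩ := hs u v
    exact ⟨p, hp.trans (mul_le_mul_of_nonneg_right (le_max_left _ _) dist_nonneg)⟩

end Pool.Agent.KS6_76.YY
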